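import Pool.Agent.Helper67.GR.St6
import Pool.Agent.Helper67.GR.M_UL
import Pool.Agent.Helper67.GR.M_ACz
import Pool.Agent.Helper67.GR.M_ACd1
import Pool.Agent.Helper67.GR.M_ACd2
import Pool.Agent.Helper67.GR.M_ACd3
import Pool.Agent.Helper67.GR.M_ACp
import Pool.Agent.Helper67.GR.M_ACk
import Pool.Agent.Helper67.GR.M_AC
import Pool.Agent.Helper67.GR.M_BCd
import Pool.Agent.Helper67.GR.M_BC
import Pool.Agent.Helper67.GR.M_FD
import Pool.Agent.Helper67.GR.M_FI1
import Pool.Agent.Helper67.GR.M_FI2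
import Pool.Agent.Helper67.GR.M_Fall
import Pool.Agent.Helper67.GR.M_FIy
import Pool.Agent.Helper67.GR.M_FIv
import Pool.Agent.Helper67.GR.M_FBd
import Pool.Agent.Helper67.GR.M_FBm
import Pool.Agent.Helper67.GR.M_FB
import Pool.Agent.Helper67.GR.M_CL
import Pool.Agent.Helper67.GR.M_BTR
import Pool.Agent.Helper67.GR.M_Pack
import Pool.Agent.Helper67.GR.M_NS
import Pool.Agent.Helper67.GR.M_PI
import Pool.Agent.Helper67.GR.M_RP
import Pool.Agent.Helper67.GR.M_MSd
import Pool.Agent.Helper67.GR.M_MSc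
import Pool.Agent.Helper67.GR.M_MSl
import Pool.Agent.Helper67.GR.M_MS
import Pool.Agent.Helper67.GR.M_FarP
import Pool.Agent.Helper67.GR.M_FarD
import Pool.Agent.Helper67.GR.M_FarE
import Pool.Agent.Helper67.GR.M_PackE
import Pool.Agent.Helper67.GR.M_MidE
import Pool.Agent.Helper67.GR.M_SE
import Pool.Agent.Helper67.GR.M_Box
import Pool.Agent.Helper67.GR.M_LevL
import Pool.Agent.Helper67.GR.M_MirB
import Pool.Agent.Helper67.GR.M_MirP
import Pool.Agent.Helper67.GR.M_Lev
import Pool.Agent.Helper67.GR.M_Tot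
import Pool.Agent.Helper67.GR.M_J1
import Pool.Agent.Helper67.GR.M_Jd
import Pool.Agent.Helper67.GR.M_Jm
import Pool.Agent.Helper67.GR.M_SkL
import Pool.Agent.Helper67.GR.M_Sk
import Pool.Agent.Helper67.GR.M_SkLow
import Pool.Agent.Helper67.GR.M_Stuck
import Pool.Agent.Helper67.GR.M_Main
import Pool.Agent.Helper67.GR.M_T1
import Pool.Agent.Helper67.GR.M_T2
import Pool.Agent.Helper67.GR.M_T3
import Pool.Agent.Helper67.GR.M_T4
import Pool.Agent.Helper67.GR.M_T5
import Pool.Agent.Helper67.GR.M_T6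
import Pool.Agent.Helper67.GR.M_T7a
import Pool.Agent.Helper67.GR.M_T7b
import Pool.Agent.Helper67.GR.M_T7
import Pool.Agent.Helper67.GR.M_T8
import Pool.Agent.Helper67.GR.M_T9
import Pool.Agent.Helper67.GR.M_T10

/-! # Greedy routing in sequentially grown nearest-neighbour graphs on the circle

Full answer (yes) to Q1 of MP_d9675d_pr.
-/

namespace Pool.Agent.Results.MP_d9675d_pr.GreedyRouting

open MeasureTheory ProbabilityTheory Pool.Agent.Helper67.GR

/-- Vertices `i` and `j` are neighbours in the graph grown from the points `X 0, X 1, …`: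
the earlier one, `min i j`, is among the `K` nearest to `X (max i j)` of the points inserted
before `max i j`, that is fewer than `K` earlier points are strictly closer. -/
def Nbr (K : ℕ) {n : ℕ} (X : Fin n → UnitAddCircle) (i j : Fin n) : Prop :=
  i ≠ j ∧ (Finset.univ.filter (fun k => k < max i j ∧
    dist (X k) (X (max i j)) < dist (X (min i j)) (X (max i j)))).card < K

/-- One move of the greedy walk with target `t`: from `v` to a neighbour `u` of `v` which is
closest to the target among all neighbours of `v`, and strictly closer than `v`. -/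
def Move (K : ℕ) {n : ℕ} (X : Fin n → UnitAddCircle) (t v u : Fin n) : Prop :=
  Nbr K X v u ∧ dist (X u) (X t) < dist (X v) (X t) ∧
    ∀ w, Nbr K X v w → dist (X u) (X t) ≤ dist (X w) (X t)

/-- Every greedy walk started at `v` reaches `t` after at most `m` moves (and so never gets
stuck before). -/
def Reaches (K : ℕ) {n : ℕ} (X : Fin n → UnitAddCircle) (t : Fin n) : ℕ → Fin n → Prop
  | 0, v => v = t
  | m + 1, v => v = t ∨ ((∃ u, Move K X t v u) ∧ ∀ u, Move K X t v u → Reaches K X t m u)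

/-- The law of `(X, (s, t))`: `n` independent uniform points of the circle of length one, and
independently `s` and `t` independent uniform vertices. -/
noncomputable def law (n : ℕ) : Measure ((Fin n → UnitAddCircle) × (Fin n × Fin n)) :=
  (Measure.pi (fun _ : Fin n => (volume : Measure UnitAddCircle))).prod (uniformOn Set.univ)

lemma nbr_iff (K : ℕ) {n : ℕ} (X : Fin n → UnitAddCircle) (i j : Fin n) :
    Nbr K X i j ↔ nbr K (fun a b => dist (X a) (X b)) i j := by
  unfold Nbr nbr
  have : ∀ k, (k < max i j ∧ dist (X k) (X (max i j)) < dist (X (min i j)) (X (max i j))) ↔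
      (k < max i j ∧ dist (X (max i j)) (X k) < dist (X (max i j)) (X (min i j))) := by
    intro k
    rw [dist_comm (X k), dist_comm (X (min i j))]
  simp only [this]

lemma move_iff (K : ℕ) {n : ℕ} (X : Fin n → UnitAddCircle) (t v u : Fin n) :
    Move K X t v u ↔ gst K (fun a b => dist (X a) (X b)) t v u := by
  unfold Move gst
  simp only [nbr_iff, dist_comm (X u) (X t), dist_comm (X v) (X t)]
  constructor
  · rintro ⟨h1, h2, h3⟩
    exact ⟨h1, h2, fun w hw => by rw [dist_comm (X t) (X w)]; exact h3 w hw⟩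
  · rintro ⟨h1, h2, h3⟩
    exact ⟨h1, h2, fun w hw => by rw [dist_comm (X w) (X t)]; exact h3 w hw⟩

lemma reaches_iff (K : ℕ) {n : ℕ} (X : Fin n → UnitAddCircle) (t : Fin n) (m : ℕ)
    (v : Fin n) : Reaches K X t m v ↔ suc K (fun a b => dist (X a) (X b)) t m v := by
  induction m generalizing v with
  | zero => rfl
  | succ m ih => simp only [Reaches, suc, move_iff, ih]

open Classical in
/-- the comparison pattern of a configuration -/
noncomputable def pat {n : ℕ} (X : Fin n → UnitAddCircle) : Fin n → Fin n → Fin n → Bool :=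
  fun a b c => decide (dist (X a) (X b) < dist (X a) (X c))

lemma measurable_pat (n : ℕ) : Measurable (pat : (Fin n → UnitAddCircle) → _) := by
  refine measurable_pi_lambda _ (fun a => measurable_pi_lambda _ (fun b =>
    measurable_pi_lambda _ (fun c => ?_)))
  refine measurable_to_bool ?_
  have : (fun X : Fin n → UnitAddCircle => pat X a b c) ⁻¹' {true} =
      {X | dist (X a) (X b) < dist (X a) (X c)} := by
    ext X
    simp [pat]
  rw [this]
  exact measurableSet_lt ((measurable_pi_apply a).dist (measurable_pi_apply b))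
    ((measurable_pi_apply a).dist (measurable_pi_apply c))

lemma measurable_reaches (h1 : StT1) (K n m : ℕ) (t v : Fin n) :
    MeasurableSet {X : Fin n → UnitAddCircle | Reaches K X t m v} := by
  have : {X : Fin n → UnitAddCircle | Reaches K X t m v} =
      pat ⁻¹' (pat '' {X : Fin n → UnitAddCircle | Reaches K X t m v}) := by
    ext X
    constructor
    · intro h; exact ⟨X, h, rfl⟩
    · rintro ⟨X', h', hp⟩
      simp only [Set.mem_ofPred_eq, reaches_iff] at h' ⊢
      refine (h1 n K _ _ t ?_ m v).1 h'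
      intro a b c
      have := congrFun (congrFun (congrFun hp a) b) c
      simpa [pat] using this
  rw [this]
  exact measurable_pat n (Set.toFinite _).measurableSet

instance instProbCircle : IsProbabilityMeasure (volume : Measure UnitAddCircle) :=
  ⟨UnitAddCircle.measure_univ⟩

theorem isProb_law (n : ℕ) [NeZero n] : IsProbabilityMeasure (law n) := by
  unfold law
  have : IsProbabilityMeasure (uniformOn (Set.univ : Set (Fin n × Fin n))) :=
    isProbabilityMeasure_uniformOn Set.finite_univ Set.univ_nonempty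
  infer_instance

lemma law_compl (h1 : StT1) (K n m : ℕ) [NeZero n] :
    MeasurableSet {ω : (Fin n → UnitAddCircle) × (Fin n × Fin n) |
      Reaches K ω.1 ω.2.2 m ω.2.1} ∧
    (law n).real {ω : (Fin n → UnitAddCircle) × (Fin n × Fin n) |
      ¬ Reaches K ω.1 ω.2.2 m ω.2.1} =
    (∑ s : Fin n, ∑ t : Fin n, (volume {X : Fin n → UnitAddCircle |
      ¬ suc K (fun a b => dist (X a) (X b)) t m s}).toReal) / (n : ℝ) ^ 2 := by
  have hS : {ω : (Fin n → UnitAddCircle) × (Fin n × Fin n) |
      Reaches K ω.1 ω.2.2 m ω.2.1} = ⋃ p : Fin n × Fin n,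
      {X : Fin n → UnitAddCircle | Reaches K X p.2 m p.1} ×ˢ {p} := by
    ext ω
    simp only [Set.mem_ofPred_eq, Set.mem_iUnion, Set.mem_prod, Set.mem_singleton_iff]
    constructor
    · intro h; exact ⟨ω.2, h, rfl⟩
    · rintro ⟨p, h, rfl⟩; exact h
  have hmeas : MeasurableSet {ω : (Fin n → UnitAddCircle) × (Fin n × Fin n) |
      Reaches K ω.1 ω.2.2 m ω.2.1} := by
    rw [hS]
    exact MeasurableSet.iUnion (fun p => (measurable_reaches h1 K n m p.2 p.1).prod
      (measurableSet_singleton p))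
  refine ⟨hmeas, ?_⟩
  have hc : {ω : (Fin n → UnitAddCircle) × (Fin n × Fin n) |
      ¬ Reaches K ω.1 ω.2.2 m ω.2.1} = {ω : (Fin n → UnitAddCircle) × (Fin n × Fin n) |
      Reaches K ω.1 ω.2.2 m ω.2.1}ᶜ := by
    ext ω; simp
  have hn : (n : ℝ) ≠ 0 := Nat.cast_ne_zero.2 (NeZero.ne n)
  have hfin : ∀ p : Fin n × Fin n, (volume {X : Fin n → UnitAddCircle |
      ¬ suc K (fun a b => dist (X a) (X b)) p.2 m p.1}) ≠ ⊤ := by
    intro p
    rw [volume_pi]
    exact measure_ne_top _ _
  rw [measureReal_def, law, Measure.prod_apply_symm (by rw [hc]; exact hmeas.compl),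
    lintegral_fintype]
  have hone : ∀ p : Fin n × Fin n, (uniformOn (Set.univ : Set (Fin n × Fin n))) {p} =
      ((n : ENNReal) ^ 2)⁻¹ := by
    intro p
    rw [uniformOn_univ, Measure.count_singleton, Fintype.card_prod, Fintype.card_fin,
      one_div]
    push_cast
    rw [sq]
  have hset : ∀ p : Fin n × Fin n,
      (fun x => (x, p)) ⁻¹' {ω : (Fin n → UnitAddCircle) × (Fin n × Fin n) |
        ¬ Reaches K ω.1 ω.2.2 m ω.2.1} = {X : Fin n → UnitAddCircle |
      ¬ suc K (fun a b => dist (X a) (X b)) p.2 m p.1} := by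
    intro p
    ext X
    simp only [Set.mem_preimage, Set.mem_ofPred_eq, reaches_iff]
  simp only [hone, hset]
  rw [← Finset.sum_mul, ENNReal.toReal_mul, ENNReal.toReal_sum, Fintype.sum_prod_type]
  · rw [ENNReal.toReal_inv, ENNReal.toReal_pow, ENNReal.toReal_natCast, div_eq_mul_inv]
    rfl
  · intro p _
    have := hfin p
    rwa [volume_pi] at this

theorem final_of (h1 : StT1) (h10 : StT10) : ∀ ε : ℝ, 0 < ε → ∃ (K₀ : ℕ) (C : ℝ),
    ∀ K ≥ K₀, ∃ n₀ : ℕ, ∀ n ≥ n₀, 1 - ε ≤ (law n).real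
      {ω | ∃ m : ℕ, (m : ℝ) ≤ C * Real.log n ∧ Reaches K ω.1 ω.2.2 m ω.2.1} := by
  intro ε hε
  obtain ⟨K₀, C, hC, h⟩ := h10 ε hε
  refine ⟨K₀, C, fun K hK => ?_⟩
  obtain ⟨n₀, hn₀⟩ := h K hK
  refine ⟨max n₀ 1, fun n hn => ?_⟩
  have hn1 : 1 ≤ n := le_trans (le_max_right _ _) hn
  have : NeZero n := ⟨by omega⟩
  have := isProb_law n
  have hlog : 0 ≤ C * Real.log n :=
    mul_nonneg hC.le (Real.log_nonneg (by exact_mod_cast hn1))
  set m := ⌊C * Real.log n⌋₊ with hm
  obtain ⟨hmeas, heq⟩ := law_compl h1 K n m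
  have hle := hn₀ n (le_trans (le_max_left _ _) hn)
  have hnpos : (0 : ℝ) < (n : ℝ) ^ 2 := by positivity
  have h2 : (law n).real {ω : (Fin n → UnitAddCircle) × (Fin n × Fin n) |
      ¬ Reaches K ω.1 ω.2.2 m ω.2.1} ≤ ε := by
    rw [heq, div_le_iff₀ hnpos]
    exact hle
  have hc : {ω : (Fin n → UnitAddCircle) × (Fin n × Fin n) |
      ¬ Reaches K ω.1 ω.2.2 m ω.2.1} = {ω : (Fin n → UnitAddCircle) × (Fin n × Fin n) |
      Reaches K ω.1 ω.2.2 m ω.2.1}ᶜ := by
    ext ω; simp
  rw [hc, probReal_compl_eq_one_sub hmeas] at h2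
  have h3 : (law n).real {ω : (Fin n → UnitAddCircle) × (Fin n × Fin n) |
      Reaches K ω.1 ω.2.2 m ω.2.1} ≤ (law n).real
      {ω | ∃ m : ℕ, (m : ℝ) ≤ C * Real.log n ∧ Reaches K ω.1 ω.2.2 m ω.2.1} := by
    refine measureReal_mono ?_ (measure_ne_top _ _)
    intro ω hω
    exact ⟨m, Nat.floor_le hlog, hω⟩
  linarith

theorem result : ∀ ε : ℝ, 0 < ε → ∃ (K₀ : ℕ) (C : ℝ),
    ∀ K ≥ K₀, ∃ n₀ : ℕ, ∀ n ≥ n₀, 1 - ε ≤ (law n).real
      {ω | ∃ m : ℕ, (m : ℝ) ≤ C * Real.log n ∧ Reaches K ω.1 ω.2.2 m ω.2.1} := by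
  have pz := hACz
  have pk := hACk pz (hACd1 pz) (hACd2 pz) (hACd3 pz) hACp
  have pac := hAC hUL pk
  have pbc := hBC pac hBCd
  have pfall := hFall hFI1 (hFI2 pbc hFD)
  have pfiv := hFIv (hFIy pfall)
  have pfb := hFB hFBd (hFBm pfiv)
  have pbtr := hBTR hCL
  have pms := hMS hMSd (hMSc hRP) hMSl
  have pfare := hFarE (hFarP pms pfb) (hFarD pbtr) hPI
  have ppack := hPackE hPack hPI hRP
  have pbox := hBox pfare ppack (hMidE pbtr pfb hRP hPI) (hSE pbtr pfiv hRP hPack hPI) hPI
  have plev := hLev (hLevL pbox hPI) hMirB hMirP hPI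
  have ptot := hTot plev hPI
  have pj1 := hJ1 pms
  have pjd := hJd hNS
  have pjm := hJm pj1
  have psk := hSk (hSkL pjd pjm pfare hPI) hMirB hMirP
  have pst := hStuck psk (hSkLow pjd pjm) pj1 pjd hPI
  have pmain := hMain ptot pst
  have p9 := hT9 pmain hT5 hT6 (hT7 hT7a hT7b) hT8
  exact final_of hT1 (hT10 hT1 hT2 hT3 hT4 p9)

end Pool.Agent.Results.MP_d9675d_pr.GreedyRouting
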